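import Mathlib

/-!
# MP_9a7843_ag, block B: common definitions for the blocks X, T, V, L, A

`X = P_{Gr(2,10)}(S^3 Pi)` in its Segre embedding, in the language of coordinates over a field.
Nothing in this file is a theorem of the final statement; it fixes the names that the blocks share.
(All formulas are for `N = 10`.)
-/

namespace MP9a7843

/-- Index set of the Segre coordinates `F_(a,b,c) * P_(d,e)`. -/
abbrev Idx : Type := (Fin 10 × Fin 10 × Fin 10) × (Fin 10 × Fin 10)

section Formulas

variable {R : Type*} [CommRing R]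

/-- Coordinates of the symmetric tensor `F = c0 u^3 + 3 c1 u^2 v + 3 c2 u v^2 + c3 v^3`. -/
def cub (u v : Fin 10 → R) (c : Fin 4 → R) (a b d : Fin 10) : R :=
  c 0 * (u a * u b * u d)
    + c 1 * (u a * u b * v d + u a * v b * u d + v a * u b * u d)
    + c 2 * (u a * v b * v d + v a * u b * v d + v a * v b * u d)
    + c 3 * (v a * v b * v d)

/-- Pluecker coordinates of the plane spanned by `u` and `v`. -/
def plu (u v : Fin 10 → R) (d e : Fin 10) : R := u d * v e - u e * v d

/-- The point `(F, P)` of `X` in Segre coordinates. -/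
def zfun (u v : Fin 10 → R) (c : Fin 4 → R) : Idx → R :=
  fun I => cub u v c I.1.1 I.1.2.1 I.1.2.2 * plu u v I.2.1 I.2.2

end Formulas

/-- The cubic index `i^(3-m) j^m`. -/
def cubIdx (i j : Fin 10) (m : Fin 4) : Fin 10 × Fin 10 × Fin 10 :=
  ![(i, i, i), (i, i, j), (i, j, j), (j, j, j)] m

/-- The Segre index of the cell `(i, j, m)`. -/
def cellIdx (i j : Fin 10) (m : Fin 4) : Idx := (cubIdx i j m, (i, j))

/-- Names of the 19 coordinates of the cell `(i, j, m)`. -/
abbrev CellVar (i j : Fin 10) (m : Fin 4) : Type :=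
  {l : Fin 10 // l ≠ i ∧ l ≠ j} ⊕ {l : Fin 10 // l ≠ i ∧ l ≠ j} ⊕ {m' : Fin 4 // m' ≠ m}

section Cells

variable {K : Type*} [Field K]

/-- First basis vector of the plane in the cell `(i, j, m)` (`E_i = 1`, `E_j = 0`). -/
def cellE (z : Idx → K) (i j : Fin 10) (m : Fin 4) (l : Fin 10) : K :=
  z (cubIdx i j m, (l, j)) / z (cellIdx i j m)

/-- Second basis vector of the plane in the cell `(i, j, m)` (`E'_i = 0`, `E'_j = 1`). -/
def cellE' (z : Idx → K) (i j : Fin 10) (m : Fin 4) (l : Fin 10) : K :=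
  z (cubIdx i j m, (i, l)) / z (cellIdx i j m)

/-- Coefficients of the cubic in the basis `E, E'` (`gamma_m = 1`). -/
def cellG (z : Idx → K) (i j : Fin 10) (m : Fin 4) (m' : Fin 4) : K :=
  z (cubIdx i j m', (i, j)) / z (cellIdx i j m)

/-- The 19 coordinates of the point `z` in the cell `(i, j, m)`. -/
def cellCoord (z : Idx → K) (i j : Fin 10) (m : Fin 4) : CellVar i j m → K :=
  Sum.elim (fun l => cellE z i j m l.1)
    (Sum.elim (fun l => cellE' z i j m l.1) (fun m' => cellG z i j m m'.1))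

/-- `z` is a point of `X` with values in `K` (explicit form, block X proves that this is the same as
being killed by all forms that kill the generic point). -/
def OnX (z : Idx → K) : Prop :=
  z ≠ 0 ∧ ∃ (u v : Fin 10 → K) (c : Fin 4 → K), z = zfun u v c

end Cells

section DVR

variable (k : Type*) [Field k] {K : Type*} [Field K] [Algebra k K]

/-- `A` is a discrete valuation ring of `K` containing `k`. -/
def IsDVRof (A : ValuationSubring K) : Prop :=
  (∀ c : k, algebraMap k K c ∈ A) ∧ IsDiscreteValuationRing A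

/-- `A` contains the `x i` and is etale over `k[x]`: every derivation of `K` that maps the `x i` into `A`
maps `A` into `A`. -/
def EtaleAt (A : ValuationSubring K) {σ : Type*} (x : σ → K) : Prop :=
  (∀ i, x i ∈ A) ∧ ∀ δ : Derivation k K K, (∀ i, δ (x i) ∈ A) → ∀ a ∈ A, δ a ∈ A

omit [Algebra k K] [Field k] in
/-- `ϖ` generates the maximal ideal of `A`. -/
def IsUnif (A : ValuationSubring K) (ϖ : K) : Prop :=
  ϖ ≠ 0 ∧ ∀ x : K, A.valuation x < 1 ↔ x / ϖ ∈ A

open Classical in
/-- The order of `x` along the discrete valuation ring `A` (`0` for `x = 0` and if `A` is not discrete). -/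
noncomputable def ord (A : ValuationSubring K) (x : K) : ℤ :=
  if h : ∃ n : ℤ, ∃ ϖ : K, IsUnif A ϖ ∧ A.valuation (x / ϖ ^ n) = 1 then h.choose else 0

/-- The discrete valuation rings of `K` that are etale over `X` (via the point `z`). -/
def VSet (z : Idx → K) : Set (ValuationSubring K) :=
  {A | IsDVRof k A ∧ ∃ (i j : Fin 10) (m : Fin 4), i ≠ j ∧ z (cellIdx i j m) ≠ 0 ∧
    EtaleAt k A (cellCoord z i j m)}

/-- `z` is the generic point of `X` and `K` is the function field of `X`. -/
structure IsGenX (z : Idx → K) : Prop where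
  ne : z (cellIdx 0 1 0) ≠ 0
  indep : AlgebraicIndependent k (cellCoord z 0 1 0)
  gen : IntermediateField.adjoin k (Set.range (cellCoord z 0 1 0)) = ⊤
  eq : ∀ I, z I = z (cellIdx 0 1 0) *
    zfun (cellE z 0 1 0) (cellE' z 0 1 0) (cellG z 0 1 0) I

/-- Names of the 19 coordinates of the T-chart `(i; j)`. -/
abbrev TVar (i j : Fin 10) : Type :=
  {l : Fin 10 // l ≠ i} ⊕ {l : Fin 10 // l ≠ i ∧ l ≠ j} ⊕ Fin 2

omit [Field k] [Algebra k K] in
/-- The coordinates of `(u, v, a0)` (modulo `(λ u, μ v, λ^(-2) μ^2 a0)`) in the T-chart `(i; j)`: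
`u_l/u_i`, `P_il/P_ij`, `b = v_i u_i/P_ij`, `a0 u_i^4/P_ij^2`. -/
def tCoord (u v : Fin 10 → K) (a0 : K) (i j : Fin 10) : TVar i j → K :=
  Sum.elim (fun l => u l.1 / u i)
    (Sum.elim (fun l => plu u v i l.1 / plu u v i j)
      ![v i * u i / plu u v i j, a0 * u i ^ 4 / plu u v i j ^ 2])

/-- `K` is the function field of `T` and `z` is the point `F = a0 u^3 + 3 u v^2` of `X(K)`,
`(u, v, a0)` normalised by `u_0 = 1`, `P_01 = 1`. -/
structure IsGenT (z : Idx → K) (u v : Fin 10 → K) (a0 : K) : Prop where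
  u0 : u 0 = 1
  p01 : plu u v 0 1 = 1
  indep : AlgebraicIndependent k (tCoord u v a0 0 1)
  gen : IntermediateField.adjoin k (Set.range (tCoord u v a0 0 1)) = ⊤
  eq : ∃ r : K, r ≠ 0 ∧ ∀ I, z I = r * zfun u v ![a0, 0, 1, 0] I

end DVR

end MP9a7843
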